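import Pool.Agent.helper67.KN.Asym

/-!
# Every spectral point is asymptotically Kneser-normalised, uniformly

For a spectral point `φ` let `D(p, q) = p/q - φ(KC p q)`, where `KC p q` is the complement of the
Kneser graph of the `q`-subsets of a `p`-set. Then `0 ≤ D(p + q, q) ≤ D(p, q)`, and `D(p, q) ≤ 4/n`
as soon as `p/q ≥ n^(2n)`: the defect tends to zero as `p/q` tends to infinity, uniformly in the
spectral point and in `q`.

The lower bound. Let `p₀ = Q^n + 1`. The words `x` in `(Z/p₀)^n` with `∑ Q^c x_c = 0` are `p₀^(n-1)`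
in number, and two different ones have a coordinate in which their circular distance is at least `Q`
(an integer combination `∑ Q^c d_c` with `|d_c| < Q` is less than `p₀` in absolute value, and it is
zero only if all `d_c` are). If `s Q ≥ q p₀` there are `p₀` cyclic intervals of length `q` in `Z/s`
such that those with indices at circular distance at least `Q` are disjoint. So
`φ(KC s q)^n ≥ p₀^(n-1)` and `φ(KC s q) ≥ p₀/Q - 2/(Q n)`. For `q ≤ n²` one takes `Q = q`, `s = p₀`, for
`q > n²` one takes `Q = n` and `s` the least possible, and in both cases one cuts the `p`-set into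
about `frac(p/q) n` (or `q frac(p/q)`) parts of size `s` and parts of size `q`.
-/

set_option autoImplicit false

namespace Pool.Agent.Results.MP_0b002e_co.AsymptoticNormalisation

open Pool.Agent.helper67.KN

theorem result (φ : (V : Type) → [Fintype V] → SimpleGraph V → ℝ) (hφ : IsSpectralPoint φ) :
    (∀ p q : ℕ, 1 ≤ q → q ≤ p →
      0 ≤ (p : ℝ) / q - φ _ (KC p q) ∧
      ((p + q : ℕ) : ℝ) / q - φ _ (KC (p + q) q) ≤ (p : ℝ) / q - φ _ (KC p q) ∧
      ∀ n : ℕ, 1 ≤ n →
        (q ^ (n + 1) ≤ p → (p : ℝ) / q - φ _ (KC p q) ≤ 2 / n) ∧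
        (n ^ (2 * n) * q ≤ p → (p : ℝ) / q - φ _ (KC p q) ≤ 4 / n)) ∧
    ((∀ p q : ℕ, 1 ≤ q → 2 * q ≤ p → φ _ (KC p q) = (p : ℝ) / q) ↔
      ∀ p q : ℕ, 1 ≤ q → 2 * q < p → p < 3 * q → φ _ (KC p q) = (p : ℝ) / q) := by
  refine ⟨fun p q hq hpq => ⟨?_, ?_, fun n hn => ⟨fun h => ?_, fun h => ?_⟩⟩, reduction hφ⟩
  · have := upper hφ p q hq hpq
    linarith
  · have h1 := step hφ p q hq
    have hqR : (0 : ℝ) < q := by exact_mod_cast hq
    have h2 : ((p + q : ℕ) : ℝ) / q = (p : ℝ) / q + 1 := by
      push_cast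
      rw [add_div, div_self hqR.ne']
    rw [h2]
    linarith
  · have := lower3 hφ p q n hq hn h
    linarith
  · have := lower4 hφ p q n hq hn h
    linarith

end Pool.Agent.Results.MP_0b002e_co.AsymptoticNormalisation
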