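import Pool.Agent.helper78.KNI.Near

/-!
# Every spectral point is Kneser-normalised near integer ratios, uniformly

`KC p q` is the complement of the Kneser graph of the `q`-subsets of a `p`-set. Every spectral point
satisfies `0 ≤ p/q - φ (KC p q) ≤ 3/n` for all `p ≥ 2q` such that `p/q` is at distance less than
`9^(-n)` from an integer. The point is the limit from below at the integers `k ≥ 3`.

The code. Let `N = (3^n + 1)/2`, `Q = (3^(n-1) + 1)/2` and `C_j = [(3^j + 1)/2, 3^j]` modulo
`3^(j+1)` for `j < n`. Every `d` with `0 < d < N` lies in some `C_j` (this is the partition of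
Schur), and `C_j` is symmetric under `d ↦ N - d`. The set `T_j` of the residues
`[0, (3^j - 1)/2] ∪ [(3^(j+1) + 1)/2, (3^(j+1) + 3^j - 2)/2]` has no difference in `C_j`, and exactly
`Q` of the integers `0 ≤ a < N` have a residue in `T_j`; they form `A_j`. The `N` words
`u ↦ (u - A_j)_j` with `u` in `Z/N` are then pairwise disjoint in some coordinate, so
`φ (KC N Q)^n ≥ N ≥ 3^n/2` and `φ (KC N Q) ≥ 3 - 3/n`, while `N/Q = 3 - 2/(3^(n-1) + 1)`.
-/

set_option autoImplicit false

namespace Pool.Agent.Results.MP_0b002e_co.NearIntegers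

open Pool.Agent.helper67.KN

theorem result (φ : (V : Type) → [Fintype V] → SimpleGraph V → ℝ) (hφ : IsSpectralPoint φ)
    (n p q k : ℕ) (hn : 1 ≤ n) (hq : 1 ≤ q) (hpq : 2 * q ≤ p)
    (h : |(p : ℝ) / q - k| < 1 / 9 ^ n) :
    0 ≤ (p : ℝ) / q - φ _ (KC p q) ∧ (p : ℝ) / q - φ _ (KC p q) ≤ 3 / n :=
  Pool.Agent.KNI.near_n hφ n p q k hn hq hpq h

end Pool.Agent.Results.MP_0b002e_co.NearIntegers
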