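import Pool.Agent.helper67.KP.Fin

/-!
# Spectral points of rank type are Kneser-normalised

(1) Every spectral point of rank type has the value `p/q` at the complement `KC p q` of the Kneser
graph of the `q`-subsets of a `p`-set, for all `p ≥ 2q ≥ 2`. (2) For every field `F` the fractional
Haemers bound over `F` is a spectral point (Bukh and Cox) of rank type, and its value `p/q` at
`KC p q` is attained by a representation.

The lower bound. Let `f` be a rank type function with unit `d` for `KC p q`. Let `R(l)` be the sum
of `f` over the `p` sets of `l` consecutive arcs of length `q` in `ℤ/p`. By submodularity `R` is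
concave, `R(1) ≥ p d`, and `R(l + q) ≥ R(l) + p d` for `l ≤ m = p + 1 - 2q`, because the last of
`q` further arcs is disjoint from the first `l` arcs. So the increments `R(l + 1) - R(l)`, `l ≤ m`,
are at least `p d / q`, hence `R(m) ≥ p d + (m - 1) p d / q`, and `p f(V) ≥ R(m) + p d`.
-/

set_option autoImplicit false

namespace Pool.Agent.Results.MP_0b002e_co.RankTypePoints

open Pool.Agent.helper67.KN Pool.Agent.helper67.KP

universe u

theorem result :
    (∀ φ : (V : Type) → [Fintype V] → SimpleGraph V → ℝ, IsSpectralPoint φ → IsRankType φ →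
      ∀ p q : ℕ, 1 ≤ q → 2 * q ≤ p → φ _ (KC p q) = (p : ℝ) / q) ∧
    (∀ (F : Type u) [Field F],
      IsSpectralPoint (fun V _ G => HF F V G) ∧ IsRankType (fun V _ G => HF F V G) ∧
      ∀ p q : ℕ, 1 ≤ q → 2 * q ≤ p →
        HF F _ (KC p q) = (p : ℝ) / q ∧ (p : ℝ) / q ∈ haemersValues F (KC p q)) := by
  refine ⟨fun φ hφ hr p q hq hpq => normalised_of_rankType φ hφ hr p q hq hpq, fun F _ => ?_⟩
  refine ⟨HF_spectral F, HF_rankType F, fun p q hq hpq => ⟨?_, haemers_attained F p q hq hpq⟩⟩
  exact (haemers_isLeast F p q hq hpq).csInf_eq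

end Pool.Agent.Results.MP_0b002e_co.RankTypePoints
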